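import Pool.Agent.Lib.MP_5684f0_lc.U.Main

/-! The order of the order preserving functions of Baire class one. -/

open Pool.Agent.Lib.MP_5684f0_lc

theorem Pool.Agent.Results.MP_5684f0_lc.Classification.result :
    ∃ (r : (Cs → Cs) → Ordinal.{0}) (t : (Cs → Cs) → SignType),
      (∀ f g, Tame f → Tame g →
        (leCone f g ↔ r f < r g ∨ (r f = r g ∧ (t f = 0 ∨ t f = t g)))) ∧
      (∀ f, Tame f → r (cpl f) = r f ∧ t (cpl f) = - t f) ∧
      ∀ α σ, (∃ f, Tame f ∧ r f = α ∧ t f = σ) ↔ α < Ordinal.omega 1 ∧ (α ≠ 0 ∨ σ ≠ 0) :=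
  U.classification
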