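import Pool.Agent.Lib.MP_5684f0_lc.J.Top

open Pool.Agent.Lib.MP_5684f0_lc

theorem Pool.Agent.Results.MP_5684f0_lc.HausdorffRank.result (L : T.Lay) (f π : Cs → Cs) (c : Cs)
    (hop : ∀ x y, leT c x → leT x y → leM (f x) (f y))
    (hT : ∀ x, leT c x → leT (π x) x ∧ leT x (π x))
    (hb : ∀ a, {x | f (π x) a = true} ∈ T.Cl .one (T.Cl L {U | IsClopen U})) :
    ∃ η < Ordinal.omega.{0} 1, ∃ b : Bool,
      (∀ g : Cs → Cs, (∀ a, ∃ δ < η, ∃ b' : Bool,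
        I.Pr (T.Cl L {U | IsClopen U}) δ b' {x | g x a = true}) → leCone g f) ∧
      (∃ g : Cs → Cs, (∀ a, I.Pr (T.Cl L {U | IsClopen U}) η b {x | g x a = true}) ∧ leCone f g) ∧
      ((∀ g : Cs → Cs, (∀ a, I.Pr (T.Cl L {U | IsClopen U}) η b {x | g x a = true}) → leCone g f) ∨
        ∃ g : Cs → Cs, (∀ a, I.Pr (T.Cl L {U | IsClopen U}) η (!b) {x | g x a = true}) ∧
          leCone f g) :=
  J.rank3 hop hT hb
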